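import Pool.Agent.Lib.MP_6bc78b_nt.MS.L.H05.Sla
import Pool.Agent.Lib.MP_6bc78b_nt.H11.DirB

/-! Project MS, Part IIIa, module PSI (helper5): prime number theorem with a power saving, RH. -/

set_option autoImplicit false

open Filter Topology ArithmeticFunction MeasureTheory

namespace Pool.Agent.Lib.MP_6bc78b_nt.MS.L.H05

open Pool.Agent.Lib.MP_6bc78b_nt.MS.L Pool.Agent.Lib.MP_6bc78b_nt.H11

lemma selbergLambda_one (n : ℕ) : selbergLambda 1 n = ArithmeticFunction.vonMangoldt n := by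
  rcases Nat.eq_zero_or_pos n with h | hn
  · subst h; unfold selbergLambda; simp
  · rw [← ArithmeticFunction.moebius_mul_log_eq_vonMangoldt, ArithmeticFunction.mul_apply,
      Nat.sum_divisorsAntidiagonal (fun i j =>
        ((ArithmeticFunction.moebius : ArithmeticFunction ℝ) i) * ArithmeticFunction.log j)]
    unfold selbergLambda
    apply Finset.sum_congr rfl
    intro d hd
    have hdn := Nat.dvd_of_mem_divisors hd
    have hd0 : (d : ℝ) ≠ 0 := by
      have : d ≠ 0 := by rintro rfl; simp at hdn; omega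
      exact_mod_cast this
    rw [pow_one, ArithmeticFunction.log_apply, Nat.cast_div hdn hd0]
    simp

/-- `B(x) = ∑_{n ≤ x} Λ(n) (x - n)` -/
noncomputable def BB0 (x : ℝ) : ℝ :=
  ∑ n ∈ Finset.Icc 1 ⌊x⌋₊, ArithmeticFunction.vonMangoldt n * (x - n)

lemma BB0_eq {x : ℝ} (hx : 0 < x) : BB0 x = x * selbergSum 1 x := by
  unfold BB0 selbergSum
  rw [Finset.mul_sum]
  apply Finset.sum_congr rfl
  intro n _
  rw [selbergLambda_one]
  field_simp

lemma psi_Icc (x : ℝ) : Chebyshev.psi x =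
    ∑ n ∈ Finset.Icc 1 ⌊x⌋₊, ArithmeticFunction.vonMangoldt n := by
  unfold Chebyshev.psi
  rfl

/-- the subgradient inequality -/
lemma BB0_sub {x y : ℝ} (hx : 0 ≤ x) (hy : 0 ≤ y) :
    BB0 x + (y - x) * Chebyshev.psi x ≤ BB0 y := by
  have hform : ∀ z : ℝ, 0 ≤ z → ∀ N : ℕ, ⌊z⌋₊ ≤ N → BB0 z =
      ∑ n ∈ Finset.Icc 1 N, ArithmeticFunction.vonMangoldt n * max (z - n) 0 := by
    intro z hz N hN
    unfold BB0
    rw [← Finset.sum_subset (Finset.Icc_subset_Icc_right hN)]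
    · apply Finset.sum_congr rfl
      intro n hn
      rw [Finset.mem_Icc] at hn
      have h1 : (n : ℝ) ≤ z := (Nat.le_floor_iff hz).1 hn.2
      rw [max_eq_left (by linarith)]
    · intro n hn hn2
      rw [Finset.mem_Icc] at hn hn2
      have h1 : z < n := by
        by_contra h
        push Not at h
        exact hn2 ⟨hn.1, (Nat.le_floor_iff hz).2 h⟩
      rw [max_eq_right (by linarith), mul_zero]
  have h1 : BB0 x + (y - x) * Chebyshev.psi x =
      ∑ n ∈ Finset.Icc 1 ⌊x⌋₊, ArithmeticFunction.vonMangoldt n * (y - n) := by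
    rw [psi_Icc, Finset.mul_sum]
    unfold BB0
    rw [← Finset.sum_add_distrib]
    apply Finset.sum_congr rfl
    intro n _
    ring
  rw [h1, hform y hy (max ⌊x⌋₊ ⌊y⌋₊) (le_max_right _ _)]
  calc ∑ n ∈ Finset.Icc 1 ⌊x⌋₊, ArithmeticFunction.vonMangoldt n * (y - n)
      ≤ ∑ n ∈ Finset.Icc 1 ⌊x⌋₊, ArithmeticFunction.vonMangoldt n * max (y - n) 0 := by
        apply Finset.sum_le_sum
        intro n _
        exact mul_le_mul_of_nonneg_left (le_max_left _ _) ArithmeticFunction.vonMangoldt_nonneg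
    _ ≤ _ := by
        apply Finset.sum_le_sum_of_subset_of_nonneg
          (Finset.Icc_subset_Icc_right (le_max_left _ _))
        intro n _ _
        exact mul_nonneg ArithmeticFunction.vonMangoldt_nonneg (le_max_right _ _)

/-- from the smoothed estimate to `ψ` -/
lemma psi_of_smooth {a c0 X0 : ℝ} (hc0 : 0 ≤ c0) (hX0 : 1 ≤ X0)
    (h : ∀ x : ℝ, X0 ≤ x → |BB0 x - a * x ^ 2| ≤ c0 * x ^ (31 / 20 : ℝ)) {x : ℝ}
    (hx : 2 * X0 + 16 ≤ x) :
    |Chebyshev.psi x - 2 * a * x| ≤ (|a| + 5 * c0) * x ^ (4 / 5 : ℝ) := by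
  have hx16 : 16 ≤ x := by linarith
  have hx0 : 0 < x := by linarith
  set η : ℝ := x ^ (3 / 4 : ℝ) with hη
  have hη0 : 0 < η := by positivity
  have hη1 : η ≤ x / 2 := by
    have e1 : x = x ^ (3 / 4 : ℝ) * x ^ (1 / 4 : ℝ) := by
      rw [← Real.rpow_add hx0]; norm_num
    have e2 : (2 : ℝ) ≤ x ^ (1 / 4 : ℝ) := by
      have : (16 : ℝ) ^ (1 / 4 : ℝ) ≤ x ^ (1 / 4 : ℝ) :=
        Real.rpow_le_rpow (by norm_num) hx16 (by norm_num)
      have e3 : (16 : ℝ) ^ (1 / 4 : ℝ) = 2 := by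
        rw [show (16 : ℝ) = 2 ^ (4 : ℝ) by norm_num, ← Real.rpow_mul (by norm_num)]
        norm_num
      linarith
    have : x = η * x ^ (1 / 4 : ℝ) := e1
    nlinarith
  -- powers
  have hp : ∀ y : ℝ, 0 ≤ y → y ≤ 2 * x → y ^ (31 / 20 : ℝ) ≤ 4 * x ^ (31 / 20 : ℝ) := by
    intro y hy0 hy
    calc y ^ (31 / 20 : ℝ) ≤ (2 * x) ^ (31 / 20 : ℝ) := Real.rpow_le_rpow hy0 hy (by norm_num)
      _ = 2 ^ (31 / 20 : ℝ) * x ^ (31 / 20 : ℝ) := Real.mul_rpow (by norm_num) hx0.le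
      _ ≤ 4 * x ^ (31 / 20 : ℝ) := by
        apply mul_le_mul_of_nonneg_right _ (by positivity)
        calc (2 : ℝ) ^ (31 / 20 : ℝ) ≤ 2 ^ (2 : ℝ) :=
              Real.rpow_le_rpow_of_exponent_le (by norm_num) (by norm_num)
          _ = 4 := by norm_num
  have hq : x ^ (31 / 20 : ℝ) = η * x ^ (4 / 5 : ℝ) := by
    rw [hη, ← Real.rpow_add hx0]; norm_num
  have hηx : η ≤ x ^ (4 / 5 : ℝ) :=
    Real.rpow_le_rpow_of_exponent_le (by linarith) (by norm_num)
  have b0 := abs_le.1 (h x (by linarith))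
  have b1 := abs_le.1 (h (x + η) (by linarith))
  have b2 := abs_le.1 (h (x - η) (by linarith))
  have q1 := hp (x + η) (by linarith) (by linarith)
  have q2 := hp (x - η) (by linarith) (by linarith)
  have q1' : c0 * (x + η) ^ (31 / 20 : ℝ) ≤ c0 * (4 * x ^ (31 / 20 : ℝ)) :=
    mul_le_mul_of_nonneg_left q1 hc0
  have q2' : c0 * (x - η) ^ (31 / 20 : ℝ) ≤ c0 * (4 * x ^ (31 / 20 : ℝ)) :=
    mul_le_mul_of_nonneg_left q2 hc0
  have s1 := BB0_sub (x := x) (y := x + η) hx0.le (by linarith)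
  have s2 := BB0_sub (x := x) (y := x - η) hx0.le (by linarith)
  have ha := abs_le.1 (le_refl |a|)
  have haη : |a * η| ≤ |a| * x ^ (4 / 5 : ℝ) := by
    rw [abs_mul, abs_of_pos hη0]
    exact mul_le_mul_of_nonneg_left hηx (abs_nonneg a)
  have haη' := abs_le.1 haη
  rw [abs_le]
  rw [hq] at b0 q1' q2'
  constructor
  · -- lower bound: η ψ ≥ B(x) - B(x-η)
    have e : η * (Chebyshev.psi x - 2 * a * x) ≥
        η * (-((|a| + 5 * c0) * x ^ (4 / 5 : ℝ))) := by
      have e1 : η * Chebyshev.psi x ≥ BB0 x - BB0 (x - η) := by linarith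
      have e2 : BB0 x - BB0 (x - η) ≥ a * x ^ 2 - a * (x - η) ^ 2 -
          (c0 * (η * x ^ (4 / 5 : ℝ)) + c0 * (4 * (η * x ^ (4 / 5 : ℝ)))) := by linarith
      have e3 : η * (a * η) ≤ η * (|a| * x ^ (4 / 5 : ℝ)) :=
        mul_le_mul_of_nonneg_left haη'.2 hη0.le
      nlinarith
    exact le_of_mul_le_mul_left e hη0
  · have e : η * (Chebyshev.psi x - 2 * a * x) ≤
        η * ((|a| + 5 * c0) * x ^ (4 / 5 : ℝ)) := by
      have e1 : η * Chebyshev.psi x ≤ BB0 (x + η) - BB0 x := by linarith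
      have e2 : BB0 (x + η) - BB0 x ≤ a * (x + η) ^ 2 - a * x ^ 2 +
          (c0 * (η * x ^ (4 / 5 : ℝ)) + c0 * (4 * (η * x ^ (4 / 5 : ℝ)))) := by linarith
      have e3 : η * (a * η) ≤ η * (|a| * x ^ (4 / 5 : ℝ)) :=
        mul_le_mul_of_nonneg_left haη'.2 hη0.le
      nlinarith
    exact le_of_mul_le_mul_left e hη0

/-- partial summation with a power saving -/
lemma abelK {κ C K : ℝ} (hC0 : 0 < C) (hK : 0 ≤ K)
    (hC : ∀ x : ℝ, 0 < x → |Chebyshev.psi x - κ * x| ≤ C * x ^ (4 / 5 : ℝ)) {f f' : ℝ → ℝ}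
    (hf : ∀ t : ℝ, 0 < t → HasDerivAt f (f' t) t) (hfc : ContinuousOn f' (Set.Ioi 0))
    (hf1 : ∀ t : ℝ, 1 ≤ t → |f t| ≤ K * t ^ (-(9 / 10) : ℝ))
    (hf2 : ∀ t : ℝ, 1 ≤ t → |f' t| ≤ K * t ^ (-(19 / 10) : ℝ)) {x y : ℝ} (hx : 1 ≤ x)
    (hxy : x ≤ y) :
    |∑ n ∈ Finset.Ioc ⌊x⌋₊ ⌊y⌋₊, f n * ArithmeticFunction.vonMangoldt n -
        κ * ∫ t in x..y, f t| ≤
      12 * K * C * x ^ (-(1 / 10) : ℝ) := by
  have hx0 : 0 < x := by linarith
  have hy0 : 0 < y := by linarith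
  have hder : ∀ t : ℝ, 0 < t → deriv f t = f' t := fun t ht => (hf t ht).deriv
  have hsub : Set.Icc x y ⊆ Set.Ioi 0 := fun t ht => lt_of_lt_of_le hx0 ht.1
  have hsubu : Set.uIcc x y ⊆ Set.Ioi 0 := by rw [Set.uIcc_of_le hxy]; exact hsub
  have hc' : ContinuousOn (deriv f) (Set.Icc x y) :=
    (hfc.mono hsub).congr (fun t ht => hder t (hsub ht))
  have h1 := sum_mul_eq_sub_sub_integral_mul (fun n => ArithmeticFunction.vonMangoldt n)
    (f := f) hx0.le hxy (fun t ht => (hf t (hsub ht)).differentiableAt)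
    (hc'.integrableOn_Icc)
  rw [← Chebyshev.psi_eq_sum_Icc, ← Chebyshev.psi_eq_sum_Icc,
    ← intervalIntegral.integral_of_le hxy] at h1
  have h1' : ∫ t in x..y, deriv f t * ∑ k ∈ Finset.Icc 0 ⌊t⌋₊, ArithmeticFunction.vonMangoldt k =
      ∫ t in x..y, f' t * Chebyshev.psi t := by
    apply intervalIntegral.integral_congr
    intro t ht
    simp only
    rw [← Chebyshev.psi_eq_sum_Icc, hder t (hsubu ht)]
  rw [h1'] at h1
  have hf'i : IntervalIntegrable f' volume x y := (hfc.mono hsubu).intervalIntegrable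
  -- integration by parts for the identity
  have h2 : ∫ t in x..y, f t = y * f y - x * f x - ∫ t in x..y, t * f' t := by
    have e := intervalIntegral.integral_mul_deriv_eq_deriv_mul (a := x) (b := y)
      (u := fun t => t) (v := f) (u' := fun _ => (1 : ℝ)) (v' := f')
      (fun t _ => hasDerivAt_id t) (fun t ht => hf t (hsubu ht))
      (by apply Continuous.intervalIntegrable; fun_prop) hf'i
    simp only [one_mul] at e
    linarith
  have hpsi : IntervalIntegrable Chebyshev.psi volume x y :=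
    Chebyshev.psi_mono.intervalIntegrable
  have hi1 : IntervalIntegrable (fun t => f' t * Chebyshev.psi t) volume x y :=
    hpsi.continuousOn_mul (hfc.mono hsubu)
  have hi2 : IntervalIntegrable (fun t => t * f' t) volume x y :=
    hf'i.continuousOn_mul continuousOn_id
  have h3 : (∫ t in x..y, f' t * Chebyshev.psi t) - κ * ∫ t in x..y, t * f' t =
      ∫ t in x..y, f' t * (Chebyshev.psi t - κ * t) := by
    rw [← intervalIntegral.integral_const_mul, ← intervalIntegral.integral_sub hi1 (hi2.const_mul κ)]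
    apply intervalIntegral.integral_congr
    intro t _
    simp only
    ring
  have key : ∑ n ∈ Finset.Ioc ⌊x⌋₊ ⌊y⌋₊, f n * ArithmeticFunction.vonMangoldt n -
      κ * ∫ t in x..y, f t = f y * (Chebyshev.psi y - κ * y) - f x * (Chebyshev.psi x - κ * x) -
        ∫ t in x..y, f' t * (Chebyshev.psi t - κ * t) := by
    rw [h1, h2, ← h3]; ring
  rw [key]
  -- bounds
  have hpt : ∀ t : ℝ, 1 ≤ t → |f t * (Chebyshev.psi t - κ * t)| ≤ K * C * t ^ (-(1 / 10) : ℝ) := by
    intro t ht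
    have ht0 : 0 < t := by linarith
    rw [abs_mul]
    calc |f t| * |Chebyshev.psi t - κ * t| ≤ (K * t ^ (-(9 / 10) : ℝ)) * (C * t ^ (4 / 5 : ℝ)) :=
          mul_le_mul (hf1 t ht) (hC t ht0) (abs_nonneg _) (by positivity)
      _ = K * C * (t ^ (-(9 / 10) : ℝ) * t ^ (4 / 5 : ℝ)) := by ring
      _ = K * C * t ^ (-(1 / 10) : ℝ) := by rw [← Real.rpow_add ht0]; norm_num
  have hmono : y ^ (-(1 / 10) : ℝ) ≤ x ^ (-(1 / 10) : ℝ) :=
    Real.rpow_le_rpow_of_nonpos hx0 hxy (by norm_num)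
  have hint : |∫ t in x..y, f' t * (Chebyshev.psi t - κ * t)| ≤ 10 * K * C * x ^ (-(1 / 10) : ℝ) := by
    have e1 : ∀ t ∈ Set.Ioc x y, ‖f' t * (Chebyshev.psi t - κ * t)‖ ≤
        K * C * t ^ (-(11 / 10) : ℝ) := by
      intro t ht
      have ht1 : 1 ≤ t := by linarith [ht.1]
      have ht0 : 0 < t := by linarith
      rw [Real.norm_eq_abs, abs_mul]
      calc |f' t| * |Chebyshev.psi t - κ * t| ≤ (K * t ^ (-(19 / 10) : ℝ)) * (C * t ^ (4 / 5 : ℝ)) :=
            mul_le_mul (hf2 t ht1) (hC t ht0) (abs_nonneg _) (by positivity)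
        _ = K * C * (t ^ (-(19 / 10) : ℝ) * t ^ (4 / 5 : ℝ)) := by ring
        _ = K * C * t ^ (-(11 / 10) : ℝ) := by rw [← Real.rpow_add ht0]; norm_num
    have e2 : IntervalIntegrable (fun t : ℝ => K * C * t ^ (-(11 / 10) : ℝ)) volume x y := by
      apply ContinuousOn.intervalIntegrable
      apply ContinuousOn.mul continuousOn_const
      apply ContinuousOn.rpow_const continuousOn_id
      intro t ht
      left
      exact (hsubu ht).ne'
    have e3 := intervalIntegral.norm_integral_le_of_norm_le hxy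
      (Filter.Eventually.of_forall fun t ht => e1 t ht) e2
    rw [Real.norm_eq_abs] at e3
    refine e3.trans ?_
    rw [intervalIntegral.integral_const_mul, integral_rpow (Or.inr ⟨by norm_num, by
      rw [Set.uIcc_of_le hxy]
      intro h
      linarith [h.1]⟩)]
    have e4 : (-(11 / 10) + 1 : ℝ) = -(1 / 10) := by norm_num
    rw [e4]
    have e5 : 0 ≤ y ^ (-(1 / 10) : ℝ) := by positivity
    have e6 : (y ^ (-(1 / 10) : ℝ) - x ^ (-(1 / 10) : ℝ)) / (-(1 / 10)) =
        10 * (x ^ (-(1 / 10) : ℝ) - y ^ (-(1 / 10) : ℝ)) := by ring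
    rw [e6]
    have e7 : 0 ≤ K * C := by positivity
    nlinarith
  have hy1 := hpt y (by linarith)
  have hx1 := hpt x hx
  have hKC : 0 ≤ K * C := by positivity
  have hy2 : |f y * (Chebyshev.psi y - κ * y)| ≤ K * C * x ^ (-(1 / 10) : ℝ) :=
    hy1.trans (mul_le_mul_of_nonneg_left hmono hKC)
  have t1 := abs_sub (f y * (Chebyshev.psi y - κ * y) - f x * (Chebyshev.psi x - κ * x))
    (∫ t in x..y, f' t * (Chebyshev.psi t - κ * t))
  have t2 := abs_sub (f y * (Chebyshev.psi y - κ * y)) (f x * (Chebyshev.psi x - κ * x))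
  linarith

/-- module PSI -/
theorem psi (h : RiemannHypothesis) (hm : MerStatement) : PsiStatement := by
  obtain ⟨a, ha⟩ := Pool.Agent.Lib.MP_6bc78b_nt.H11.estimate_one h
  have h1 := (ha (1 / 20) (by norm_num)).bound
  obtain ⟨c, hc⟩ := h1
  obtain ⟨X0, hX0⟩ := hc.exists_forall_of_atTop
  set c0 : ℝ := |c| with hc0
  set X1 : ℝ := max X0 1 with hX1
  have hB : ∀ x : ℝ, X1 ≤ x → |BB0 x - a * x ^ 2| ≤ c0 * x ^ (31 / 20 : ℝ) := by
    intro x hx
    have hx1 : 1 ≤ x := le_trans (le_max_right _ _) hx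
    have hx0 : 0 < x := by linarith
    have e := hX0 x (le_trans (le_max_left _ _) hx)
    rw [Real.norm_eq_abs, Real.norm_eq_abs, abs_of_pos (a := x ^ (1 / 2 + 1 / 20 : ℝ))
      (by positivity)] at e
    have e2 : BB0 x - a * x ^ 2 = x * (selbergSum 1 x - a * x) := by
      rw [BB0_eq hx0]; ring
    rw [e2, abs_mul, abs_of_pos hx0]
    have e3 : x ^ (31 / 20 : ℝ) = x * x ^ (1 / 2 + 1 / 20 : ℝ) := by
      nth_rewrite 2 [← Real.rpow_one x]
      rw [← Real.rpow_add hx0]; norm_num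
    rw [e3]
    have e4 : c * x ^ (1 / 2 + 1 / 20 : ℝ) ≤ c0 * x ^ (1 / 2 + 1 / 20 : ℝ) :=
      mul_le_mul_of_nonneg_right (le_abs_self c) (by positivity)
    calc x * |selbergSum 1 x - a * x| ≤ x * (c0 * x ^ (1 / 2 + 1 / 20 : ℝ)) :=
          mul_le_mul_of_nonneg_left (e.trans e4) hx0.le
      _ = _ := by ring
  have hX1' : 1 ≤ X1 := le_max_right _ _
  have hc0' : 0 ≤ c0 := abs_nonneg c
  set X2 : ℝ := 2 * X1 + 16 with hX2
  have hbig := fun (x : ℝ) (hx : X2 ≤ x) => psi_of_smooth hc0' hX1' hB hx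
  -- all `x > 0`
  set C : ℝ := (|a| + 5 * c0) + (Chebyshev.psi X2 + 2 * |a| * X2) + 4 * |a| + 1 with hCdef
  have hpX2 := Chebyshev.psi_nonneg X2
  have haa := abs_nonneg a
  have hC0 : 0 < C := by rw [hCdef]; positivity
  have hall : ∀ x : ℝ, 0 < x → |Chebyshev.psi x - 2 * a * x| ≤ C * x ^ (4 / 5 : ℝ) := by
    intro x hx
    have hxp : 0 ≤ x ^ (4 / 5 : ℝ) := by positivity
    rcases lt_or_ge x 2 with h2 | h2
    · rw [Chebyshev.psi_eq_zero_of_lt_two h2, zero_sub, abs_neg, abs_mul, abs_mul, abs_of_pos hx]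
      have e1 : x ≤ 2 * x ^ (4 / 5 : ℝ) := by
        have e2 : x = x ^ (1 / 5 : ℝ) * x ^ (4 / 5 : ℝ) := by
          rw [← Real.rpow_add hx]; norm_num
        have e3 : x ^ (1 / 5 : ℝ) ≤ 2 := by
          calc x ^ (1 / 5 : ℝ) ≤ 2 ^ (1 / 5 : ℝ) := Real.rpow_le_rpow hx.le h2.le (by norm_num)
            _ ≤ 2 ^ (1 : ℝ) := Real.rpow_le_rpow_of_exponent_le (by norm_num) (by norm_num)
            _ = 2 := by norm_num
        calc x = x ^ (1 / 5 : ℝ) * x ^ (4 / 5 : ℝ) := e2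
          _ ≤ 2 * x ^ (4 / 5 : ℝ) := mul_le_mul_of_nonneg_right e3 hxp
      have e4 : |(2 : ℝ)| = 2 := abs_of_pos (by norm_num)
      rw [e4]
      calc 2 * |a| * x ≤ 2 * |a| * (2 * x ^ (4 / 5 : ℝ)) :=
            mul_le_mul_of_nonneg_left e1 (by positivity)
        _ = 4 * |a| * x ^ (4 / 5 : ℝ) := by ring
        _ ≤ C * x ^ (4 / 5 : ℝ) := by
            apply mul_le_mul_of_nonneg_right _ hxp
            rw [hCdef]
            have : 0 ≤ 2 * |a| * X2 := by positivity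
            linarith
    · rcases le_or_gt X2 x with h3 | h3
      · refine (hbig x h3).trans ?_
        apply mul_le_mul_of_nonneg_right _ hxp
        rw [hCdef]
        have : 0 ≤ 2 * |a| * X2 := by positivity
        linarith
      · have e1 : |Chebyshev.psi x - 2 * a * x| ≤ Chebyshev.psi X2 + 2 * |a| * X2 := by
          have t1 := abs_sub (Chebyshev.psi x) (2 * a * x)
          rw [abs_of_nonneg (Chebyshev.psi_nonneg x)] at t1
          have t2 : Chebyshev.psi x ≤ Chebyshev.psi X2 := Chebyshev.psi_mono h3.le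
          have t3 : |2 * a * x| ≤ 2 * |a| * X2 := by
            rw [abs_mul, abs_mul, abs_of_pos (show (0 : ℝ) < 2 by norm_num), abs_of_pos hx]
            exact mul_le_mul_of_nonneg_left h3.le (by positivity)
          linarith
        have e2 : 1 ≤ x ^ (4 / 5 : ℝ) := Real.one_le_rpow (by linarith) (by norm_num)
        refine e1.trans ?_
        calc Chebyshev.psi X2 + 2 * |a| * X2 ≤ C * 1 := by
              rw [hCdef]
              linarith
          _ ≤ C * x ^ (4 / 5 : ℝ) := mul_le_mul_of_nonneg_left e2 hC0.le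
  -- the constant is 1
  obtain ⟨Cm, hCm0, hmer, -, -⟩ := hm
  have hone : 2 * a = 1 := by
    have hf1 : ∀ t : ℝ, 0 < t → HasDerivAt (fun t : ℝ => t⁻¹) (-(t ^ 2)⁻¹) t := fun t ht =>
      hasDerivAt_inv ht.ne'
    have hb1 : ∀ t : ℝ, 1 ≤ t → |t⁻¹| ≤ 1 * t ^ (-(9 / 10) : ℝ) := by
      intro t ht
      have ht0 : 0 < t := by linarith
      rw [abs_of_pos (by positivity), ← Real.rpow_neg_one, one_mul]
      exact Real.rpow_le_rpow_of_exponent_le ht (by norm_num)
    have hsq : ∀ t : ℝ, 0 < t → (t ^ 2)⁻¹ = t ^ (-2 : ℝ) := by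
      intro t ht
      rw [Real.rpow_neg ht.le]
      norm_num
    have hb1' : ∀ t : ℝ, 1 ≤ t → |-(t ^ 2)⁻¹| ≤ 1 * t ^ (-(19 / 10) : ℝ) := by
      intro t ht
      have ht0 : 0 < t := by linarith
      rw [abs_neg, abs_of_pos (by positivity), hsq t ht0, one_mul]
      exact Real.rpow_le_rpow_of_exponent_le ht (by norm_num)
    have hc1 : ContinuousOn (fun t : ℝ => -(t ^ 2)⁻¹) (Set.Ioi 0) := by
      apply ContinuousOn.neg
      apply ContinuousOn.inv₀ (by fun_prop)
      intro t ht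
      exact pow_ne_zero _ (ne_of_gt ht)
    -- bounded
    have hbd : ∀ y : ℝ, 1 ≤ y → |(1 - 2 * a) * Real.log y| ≤ Cm + 12 * C := by
      intro y hy
      have e := abelK hC0 (by norm_num) hall hf1 hc1 hb1 hb1' le_rfl hy
      rw [integral_inv_of_pos (by norm_num) (by linarith), div_one, Real.one_rpow, Nat.floor_one]
        at e
      have e2 : ∑ n ∈ Finset.Ioc 1 ⌊y⌋₊, ((n : ℝ)⁻¹ * ArithmeticFunction.vonMangoldt n) =
          ∑ n ∈ Finset.Icc 1 ⌊y⌋₊, w1 n := by
        have e3 : Finset.Ioc 1 ⌊y⌋₊ ⊆ Finset.Icc 1 ⌊y⌋₊ := Finset.Ioc_subset_Icc_self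
        rw [← Finset.sum_subset e3]
        · apply Finset.sum_congr rfl
          intro n _
          unfold w1
          rw [div_eq_mul_inv, mul_comm]
        · intro n hn hn2
          rw [Finset.mem_Icc] at hn
          rw [Finset.mem_Ioc] at hn2
          have : n = 1 := by omega
          subst this
          unfold w1
          simp
      rw [e2] at e
      have e4 := hmer y hy
      have t := abs_sub (∑ n ∈ Finset.Icc 1 ⌊y⌋₊, w1 n - 2 * a * Real.log y)
        (∑ n ∈ Finset.Icc 1 ⌊y⌋₊, w1 n - Real.log y)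
      have e5 : ∑ n ∈ Finset.Icc 1 ⌊y⌋₊, w1 n - 2 * a * Real.log y -
        (∑ n ∈ Finset.Icc 1 ⌊y⌋₊, w1 n - Real.log y) = (1 - 2 * a) * Real.log y := by ring
      rw [e5] at t
      linarith
    by_contra hne
    have hne' : 0 < |1 - 2 * a| := abs_pos.2 (fun h => hne (by linarith))
    have hy := hbd (Real.exp ((Cm + 12 * C + 1) / |1 - 2 * a|)) (Real.one_le_exp (by positivity))
    rw [Real.log_exp, abs_mul, abs_of_pos (a := (Cm + 12 * C + 1) / |1 - 2 * a|)
      (by positivity)] at hy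
    have : |1 - 2 * a| * ((Cm + 12 * C + 1) / |1 - 2 * a|) = Cm + 12 * C + 1 := by
      field_simp
    linarith
  refine ⟨C, hC0, fun x hx => ?_⟩
  have e := hall x hx
  rw [hone, one_mul] at e
  exact e

end Pool.Agent.Lib.MP_6bc78b_nt.MS.L.H05
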