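import Pool.Agent.Lib.MP_6bc78b_nt.MS.L.Iface

/-! Project MS, Part IIIa, module SLA (helper5). -/

set_option autoImplicit false

open Filter Topology ArithmeticFunction MeasureTheory

namespace Pool.Agent.Lib.MP_6bc78b_nt.MS.L.H05

open Pool.Agent.Lib.MP_6bc78b_nt.MS.L

/-- partial summation with a power saving -/
lemma abel {C K : ℝ} (hC0 : 0 < C) (hK : 0 ≤ K)
    (hC : ∀ x : ℝ, 0 < x → |Chebyshev.psi x - x| ≤ C * x ^ (4 / 5 : ℝ)) {f f' : ℝ → ℝ}
    (hf : ∀ t : ℝ, 0 < t → HasDerivAt f (f' t) t) (hfc : ContinuousOn f' (Set.Ioi 0))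
    (hf1 : ∀ t : ℝ, 1 ≤ t → |f t| ≤ K * t ^ (-(9 / 10) : ℝ))
    (hf2 : ∀ t : ℝ, 1 ≤ t → |f' t| ≤ K * t ^ (-(19 / 10) : ℝ)) {x y : ℝ} (hx : 1 ≤ x)
    (hxy : x ≤ y) :
    |∑ n ∈ Finset.Ioc ⌊x⌋₊ ⌊y⌋₊, f n * ArithmeticFunction.vonMangoldt n - ∫ t in x..y, f t| ≤
      12 * K * C * x ^ (-(1 / 10) : ℝ) := by
  have hx0 : 0 < x := by linarith
  have hy0 : 0 < y := by linarith
  have hder : ∀ t : ℝ, 0 < t → deriv f t = f' t := fun t ht => (hf t ht).deriv
  have hsub : Set.Icc x y ⊆ Set.Ioi 0 := fun t ht => lt_of_lt_of_le hx0 ht.1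
  have hsubu : Set.uIcc x y ⊆ Set.Ioi 0 := by rw [Set.uIcc_of_le hxy]; exact hsub
  have hc' : ContinuousOn (deriv f) (Set.Icc x y) :=
    (hfc.mono hsub).congr (fun t ht => hder t (hsub ht))
  have h1 := sum_mul_eq_sub_sub_integral_mul (fun n => ArithmeticFunction.vonMangoldt n)
    (f := f) hx0.le hxy (fun t ht => (hf t (hsub ht)).differentiableAt)
    (hc'.integrableOn_Icc)
  rw [← Chebyshev.psi_eq_sum_Icc, ← Chebyshev.psi_eq_sum_Icc,
    ← intervalIntegral.integral_of_le hxy] at h1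
  have h1' : ∫ t in x..y, deriv f t * ∑ k ∈ Finset.Icc 0 ⌊t⌋₊, ArithmeticFunction.vonMangoldt k =
      ∫ t in x..y, f' t * Chebyshev.psi t := by
    apply intervalIntegral.integral_congr
    intro t ht
    simp only
    rw [← Chebyshev.psi_eq_sum_Icc, hder t (hsubu ht)]
  rw [h1'] at h1
  have hf'i : IntervalIntegrable f' volume x y := (hfc.mono hsubu).intervalIntegrable
  -- integration by parts for the identity
  have h2 : ∫ t in x..y, f t = y * f y - x * f x - ∫ t in x..y, t * f' t := by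
    have e := intervalIntegral.integral_mul_deriv_eq_deriv_mul (a := x) (b := y)
      (u := fun t => t) (v := f) (u' := fun _ => (1 : ℝ)) (v' := f')
      (fun t _ => hasDerivAt_id t) (fun t ht => hf t (hsubu ht))
      (by apply Continuous.intervalIntegrable; fun_prop) hf'i
    simp only [one_mul] at e
    linarith
  have hpsi : IntervalIntegrable Chebyshev.psi volume x y :=
    Chebyshev.psi_mono.intervalIntegrable
  have hi1 : IntervalIntegrable (fun t => f' t * Chebyshev.psi t) volume x y :=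
    hpsi.continuousOn_mul (hfc.mono hsubu)
  have hi2 : IntervalIntegrable (fun t => t * f' t) volume x y :=
    hf'i.continuousOn_mul continuousOn_id
  have h3 : (∫ t in x..y, f' t * Chebyshev.psi t) - ∫ t in x..y, t * f' t =
      ∫ t in x..y, f' t * (Chebyshev.psi t - t) := by
    rw [← intervalIntegral.integral_sub hi1 hi2]
    apply intervalIntegral.integral_congr
    intro t _
    simp only
    ring
  have key : ∑ n ∈ Finset.Ioc ⌊x⌋₊ ⌊y⌋₊, f n * ArithmeticFunction.vonMangoldt n -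
      ∫ t in x..y, f t = f y * (Chebyshev.psi y - y) - f x * (Chebyshev.psi x - x) -
        ∫ t in x..y, f' t * (Chebyshev.psi t - t) := by
    rw [h1, h2, ← h3]; ring
  rw [key]
  -- bounds
  have hpt : ∀ t : ℝ, 1 ≤ t → |f t * (Chebyshev.psi t - t)| ≤ K * C * t ^ (-(1 / 10) : ℝ) := by
    intro t ht
    have ht0 : 0 < t := by linarith
    rw [abs_mul]
    calc |f t| * |Chebyshev.psi t - t| ≤ (K * t ^ (-(9 / 10) : ℝ)) * (C * t ^ (4 / 5 : ℝ)) :=
          mul_le_mul (hf1 t ht) (hC t ht0) (abs_nonneg _) (by positivity)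
      _ = K * C * (t ^ (-(9 / 10) : ℝ) * t ^ (4 / 5 : ℝ)) := by ring
      _ = K * C * t ^ (-(1 / 10) : ℝ) := by rw [← Real.rpow_add ht0]; norm_num
  have hmono : y ^ (-(1 / 10) : ℝ) ≤ x ^ (-(1 / 10) : ℝ) :=
    Real.rpow_le_rpow_of_nonpos hx0 hxy (by norm_num)
  have hint : |∫ t in x..y, f' t * (Chebyshev.psi t - t)| ≤ 10 * K * C * x ^ (-(1 / 10) : ℝ) := by
    have e1 : ∀ t ∈ Set.Ioc x y, ‖f' t * (Chebyshev.psi t - t)‖ ≤
        K * C * t ^ (-(11 / 10) : ℝ) := by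
      intro t ht
      have ht1 : 1 ≤ t := by linarith [ht.1]
      have ht0 : 0 < t := by linarith
      rw [Real.norm_eq_abs, abs_mul]
      calc |f' t| * |Chebyshev.psi t - t| ≤ (K * t ^ (-(19 / 10) : ℝ)) * (C * t ^ (4 / 5 : ℝ)) :=
            mul_le_mul (hf2 t ht1) (hC t ht0) (abs_nonneg _) (by positivity)
        _ = K * C * (t ^ (-(19 / 10) : ℝ) * t ^ (4 / 5 : ℝ)) := by ring
        _ = K * C * t ^ (-(11 / 10) : ℝ) := by rw [← Real.rpow_add ht0]; norm_num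
    have e2 : IntervalIntegrable (fun t : ℝ => K * C * t ^ (-(11 / 10) : ℝ)) volume x y := by
      apply ContinuousOn.intervalIntegrable
      apply ContinuousOn.mul continuousOn_const
      apply ContinuousOn.rpow_const continuousOn_id
      intro t ht
      left
      exact (hsubu ht).ne'
    have e3 := intervalIntegral.norm_integral_le_of_norm_le hxy
      (Filter.Eventually.of_forall fun t ht => e1 t ht) e2
    rw [Real.norm_eq_abs] at e3
    refine e3.trans ?_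
    rw [intervalIntegral.integral_const_mul, integral_rpow (Or.inr ⟨by norm_num, by
      rw [Set.uIcc_of_le hxy]
      intro h
      linarith [h.1]⟩)]
    have e4 : (-(11 / 10) + 1 : ℝ) = -(1 / 10) := by norm_num
    rw [e4]
    have e5 : 0 ≤ y ^ (-(1 / 10) : ℝ) := by positivity
    have e6 : (y ^ (-(1 / 10) : ℝ) - x ^ (-(1 / 10) : ℝ)) / (-(1 / 10)) =
        10 * (x ^ (-(1 / 10) : ℝ) - y ^ (-(1 / 10) : ℝ)) := by ring
    rw [e6]
    have e7 : 0 ≤ K * C := by positivity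
    nlinarith
  have hy1 := hpt y (by linarith)
  have hx1 := hpt x hx
  have hKC : 0 ≤ K * C := by positivity
  have hy2 : |f y * (Chebyshev.psi y - y)| ≤ K * C * x ^ (-(1 / 10) : ℝ) :=
    hy1.trans (mul_le_mul_of_nonneg_left hmono hKC)
  have t1 := abs_sub (f y * (Chebyshev.psi y - y) - f x * (Chebyshev.psi x - x))
    (∫ t in x..y, f' t * (Chebyshev.psi t - t))
  have t2 := abs_sub (f y * (Chebyshev.psi y - y)) (f x * (Chebyshev.psi x - x))
  linarith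

/-- a Cauchy argument -/
lemma cauchy_limit {E : ℝ → ℝ} {K : ℝ} (hK : 0 ≤ K)
    (h : ∀ x y : ℝ, 1 ≤ x → x ≤ y → |E y - E x| ≤ K * x ^ (-(1 / 10) : ℝ)) :
    ∃ A : ℝ, ∀ x : ℝ, 1 ≤ x → |E x - A| ≤ K * x ^ (-(1 / 10) : ℝ) := by
  have hz : Tendsto (fun x : ℝ => K * x ^ (-(1 / 10) : ℝ)) atTop (𝓝 0) := by
    have := (tendsto_rpow_neg_atTop (y := 1 / 10) (by norm_num)).const_mul K
    simpa using this
  have hc : Cauchy (map E atTop) := by
    rw [Metric.cauchy_iff]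
    refine ⟨inferInstance, fun ε hε => ?_⟩
    have h1 : ∀ᶠ x : ℝ in atTop, K * x ^ (-(1 / 10) : ℝ) < ε / 2 :=
      hz.eventually_lt_const (by positivity)
    obtain ⟨x0, hx0, hx1⟩ := (h1.and (eventually_ge_atTop 1)).exists
    refine ⟨E '' Set.Ici x0, image_mem_map (Ici_mem_atTop x0), ?_⟩
    rintro _ ⟨a, ha, rfl⟩ _ ⟨b, hb, rfl⟩
    have e1 := h x0 a hx1 ha
    have e2 := h x0 b hx1 hb
    rw [Real.dist_eq]
    calc |E a - E b| = |(E a - E x0) - (E b - E x0)| := by congr 1; ring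
      _ ≤ |E a - E x0| + |E b - E x0| := abs_sub _ _
      _ < ε := by linarith
  obtain ⟨A, hA⟩ := CompleteSpace.complete hc
  refine ⟨A, fun x hx => ?_⟩
  have h2 : Tendsto (fun y => |E x - E y|) atTop (𝓝 |E x - A|) :=
    (tendsto_const_nhds.sub hA).abs
  apply le_of_tendsto h2
  filter_upwards [eventually_ge_atTop x] with y hy
  rw [abs_sub_comm]
  exact h x y hx hy

lemma log_le_pow {t : ℝ} (ht : 1 ≤ t) : Real.log t ≤ 10 * t ^ (1 / 10 : ℝ) := by
  have h := Real.log_le_rpow_div (x := t) (ε := 1 / 10) (by linarith) (by norm_num)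
  linarith [h, show t ^ (1 / 10 : ℝ) / (1 / 10) = 10 * t ^ (1 / 10 : ℝ) by ring]

/-- module SLA -/
theorem sla (h : PsiStatement) : SlaStatement := by
  obtain ⟨C, hC0, hC⟩ := h
  -- splitting the sums
  have hsplit : ∀ (g : ℕ → ℝ) (x y : ℝ), 1 ≤ x → x ≤ y →
      ∑ n ∈ Finset.Icc 1 ⌊y⌋₊, g n - ∑ n ∈ Finset.Icc 1 ⌊x⌋₊, g n =
        ∑ n ∈ Finset.Ioc ⌊x⌋₊ ⌊y⌋₊, g n := by
    intro g x y hx hxy
    have h1 : ⌊x⌋₊ ≤ ⌊y⌋₊ := Nat.floor_mono hxy
    have e : Finset.Icc 1 ⌊y⌋₊ = Finset.Icc 1 ⌊x⌋₊ ∪ Finset.Ioc ⌊x⌋₊ ⌊y⌋₊ := by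
      ext n; simp only [Finset.mem_union, Finset.mem_Icc, Finset.mem_Ioc]; omega
    have hd : Disjoint (Finset.Icc 1 ⌊x⌋₊) (Finset.Ioc ⌊x⌋₊ ⌊y⌋₊) := by
      rw [Finset.disjoint_left]
      intro n h1 h2
      simp only [Finset.mem_Icc, Finset.mem_Ioc] at h1 h2
      omega
    rw [e, Finset.sum_union hd]
    ring
  -- the first function
  have hf1 : ∀ t : ℝ, 0 < t → HasDerivAt (fun t : ℝ => t⁻¹) (-(t ^ 2)⁻¹) t := fun t ht =>
    hasDerivAt_inv ht.ne'
  have hb1 : ∀ t : ℝ, 1 ≤ t → |t⁻¹| ≤ 11 * t ^ (-(9 / 10) : ℝ) := by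
    intro t ht
    have ht0 : 0 < t := by linarith
    rw [abs_of_pos (by positivity), ← Real.rpow_neg_one]
    have : t ^ (-1 : ℝ) ≤ t ^ (-(9 / 10) : ℝ) :=
      Real.rpow_le_rpow_of_exponent_le ht (by norm_num)
    have h0 : 0 ≤ t ^ (-(9 / 10) : ℝ) := by positivity
    linarith
  have hsq : ∀ t : ℝ, 0 < t → (t ^ 2)⁻¹ = t ^ (-2 : ℝ) := by
    intro t ht
    rw [Real.rpow_neg ht.le]
    norm_num
  have hb1' : ∀ t : ℝ, 1 ≤ t → |-(t ^ 2)⁻¹| ≤ 11 * t ^ (-(19 / 10) : ℝ) := by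
    intro t ht
    have ht0 : 0 < t := by linarith
    rw [abs_neg, abs_of_pos (by positivity), hsq t ht0]
    have : t ^ (-2 : ℝ) ≤ t ^ (-(19 / 10) : ℝ) :=
      Real.rpow_le_rpow_of_exponent_le ht (by norm_num)
    have h0 : 0 ≤ t ^ (-(19 / 10) : ℝ) := by positivity
    linarith
  -- the second function
  have hf2 : ∀ t : ℝ, 0 < t → HasDerivAt (fun t : ℝ => Real.log t * t⁻¹)
      ((1 - Real.log t) * (t ^ 2)⁻¹) t := by
    intro t ht
    have e := (Real.hasDerivAt_log ht.ne').mul (hasDerivAt_inv ht.ne')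
    refine e.congr_deriv ?_
    field_simp
    ring
  have hb2 : ∀ t : ℝ, 1 ≤ t → |Real.log t * t⁻¹| ≤ 11 * t ^ (-(9 / 10) : ℝ) := by
    intro t ht
    have ht0 : 0 < t := by linarith
    have hl := Real.log_nonneg ht
    rw [abs_of_nonneg (by positivity)]
    have h1 := log_le_pow ht
    have e : t ^ (1 / 10 : ℝ) * t⁻¹ = t ^ (-(9 / 10) : ℝ) := by
      rw [← Real.rpow_neg_one, ← Real.rpow_add ht0]; norm_num
    have h2 : 0 < t⁻¹ := by positivity
    have h0 : 0 ≤ t ^ (-(9 / 10) : ℝ) := by positivity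
    calc Real.log t * t⁻¹ ≤ 10 * t ^ (1 / 10 : ℝ) * t⁻¹ :=
          mul_le_mul_of_nonneg_right h1 h2.le
      _ = 10 * t ^ (-(9 / 10) : ℝ) := by rw [mul_assoc, e]
      _ ≤ _ := by linarith
  have hb2' : ∀ t : ℝ, 1 ≤ t → |(1 - Real.log t) * (t ^ 2)⁻¹| ≤ 11 * t ^ (-(19 / 10) : ℝ) := by
    intro t ht
    have ht0 : 0 < t := by linarith
    have hl := Real.log_nonneg ht
    have h1 := log_le_pow ht
    have h3 : 1 ≤ t ^ (1 / 10 : ℝ) := Real.one_le_rpow ht (by norm_num)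
    rw [abs_mul, abs_of_pos (a := (t ^ 2)⁻¹) (by positivity), hsq t ht0]
    have h4 : |1 - Real.log t| ≤ 11 * t ^ (1 / 10 : ℝ) := by
      rw [abs_le]; constructor <;> linarith
    have e : t ^ (1 / 10 : ℝ) * t ^ (-2 : ℝ) = t ^ (-(19 / 10) : ℝ) := by
      rw [← Real.rpow_add ht0]; norm_num
    calc |1 - Real.log t| * t ^ (-2 : ℝ) ≤ 11 * t ^ (1 / 10 : ℝ) * t ^ (-2 : ℝ) :=
          mul_le_mul_of_nonneg_right h4 (by positivity)
      _ = _ := by rw [mul_assoc, e]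
  have hc1 : ContinuousOn (fun t : ℝ => -(t ^ 2)⁻¹) (Set.Ioi 0) := by
    apply ContinuousOn.neg
    apply ContinuousOn.inv₀ (by fun_prop)
    intro t ht
    exact pow_ne_zero _ (ne_of_gt ht)
  have hc2 : ContinuousOn (fun t : ℝ => (1 - Real.log t) * (t ^ 2)⁻¹) (Set.Ioi 0) := by
    apply ContinuousOn.mul
    · apply continuousOn_const.sub
      apply Real.continuousOn_log.mono
      intro t ht
      exact (ne_of_gt ht)
    · apply ContinuousOn.inv₀ (by fun_prop)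
      intro t ht
      exact pow_ne_zero _ (ne_of_gt ht)
  have hI1 : ∀ x y : ℝ, 1 ≤ x → x ≤ y → ∫ t in x..y, t⁻¹ = Real.log y - Real.log x := by
    intro x y hx hxy
    rw [integral_inv_of_pos (by linarith) (by linarith), Real.log_div (by linarith) (by linarith)]
  have hI2 : ∀ x y : ℝ, 1 ≤ x → x ≤ y → ∫ t in x..y, Real.log t * t⁻¹ =
      Real.log y ^ 2 / 2 - Real.log x ^ 2 / 2 := by
    intro x y hx hxy
    have hsub : ∀ t ∈ Set.uIcc x y, 0 < t := by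
      intro t ht
      rw [Set.uIcc_of_le hxy] at ht
      linarith [ht.1]
    apply intervalIntegral.integral_eq_sub_of_hasDerivAt
    · intro t ht
      have e := ((Real.hasDerivAt_log (hsub t ht).ne').pow 2).div_const 2
      refine e.congr_deriv ?_
      simp
      ring
    · apply ContinuousOn.intervalIntegrable
      apply ContinuousOn.mul
      · apply Real.continuousOn_log.mono
        intro t ht
        exact (hsub t ht).ne'
      · apply ContinuousOn.inv₀ continuousOn_id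
        intro t ht
        exact (hsub t ht).ne'
  have hE1 : ∀ x y : ℝ, 1 ≤ x → x ≤ y →
      |(∑ n ∈ Finset.Icc 1 ⌊y⌋₊, w1 n - Real.log y) -
        (∑ n ∈ Finset.Icc 1 ⌊x⌋₊, w1 n - Real.log x)| ≤ 12 * 11 * C * x ^ (-(1 / 10) : ℝ) := by
    intro x y hx hxy
    have e := abel hC0 (by norm_num) hC hf1 hc1 hb1 hb1' hx hxy
    rw [hI1 x y hx hxy] at e
    have e2 := hsplit w1 x y hx hxy
    have e3 : ∑ n ∈ Finset.Ioc ⌊x⌋₊ ⌊y⌋₊, w1 n =
        ∑ n ∈ Finset.Ioc ⌊x⌋₊ ⌊y⌋₊, ((n : ℝ)⁻¹ * ArithmeticFunction.vonMangoldt n) := by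
      apply Finset.sum_congr rfl
      intro n _
      unfold w1
      rw [div_eq_mul_inv, mul_comm]
    have e4 : (∑ n ∈ Finset.Icc 1 ⌊y⌋₊, w1 n - Real.log y) -
        (∑ n ∈ Finset.Icc 1 ⌊x⌋₊, w1 n - Real.log x) =
        ∑ n ∈ Finset.Ioc ⌊x⌋₊ ⌊y⌋₊, ((n : ℝ)⁻¹ * ArithmeticFunction.vonMangoldt n) -
          (Real.log y - Real.log x) := by
      rw [← e3, ← e2]; ring
    rw [e4]
    exact e
  have hE2 : ∀ x y : ℝ, 1 ≤ x → x ≤ y →
      |(∑ n ∈ Finset.Icc 1 ⌊y⌋₊, w1 n * Real.log n - Real.log y ^ 2 / 2) -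
        (∑ n ∈ Finset.Icc 1 ⌊x⌋₊, w1 n * Real.log n - Real.log x ^ 2 / 2)| ≤
        12 * 11 * C * x ^ (-(1 / 10) : ℝ) := by
    intro x y hx hxy
    have e := abel hC0 (by norm_num) hC hf2 hc2 hb2 hb2' hx hxy
    rw [hI2 x y hx hxy] at e
    have e2 := hsplit (fun n => w1 n * Real.log n) x y hx hxy
    have e3 : ∑ n ∈ Finset.Ioc ⌊x⌋₊ ⌊y⌋₊, w1 n * Real.log n =
        ∑ n ∈ Finset.Ioc ⌊x⌋₊ ⌊y⌋₊, (Real.log n * (n : ℝ)⁻¹ *
          ArithmeticFunction.vonMangoldt n) := by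
      apply Finset.sum_congr rfl
      intro n _
      unfold w1
      rw [div_eq_mul_inv]; ring
    have e4 : (∑ n ∈ Finset.Icc 1 ⌊y⌋₊, w1 n * Real.log n - Real.log y ^ 2 / 2) -
        (∑ n ∈ Finset.Icc 1 ⌊x⌋₊, w1 n * Real.log n - Real.log x ^ 2 / 2) =
        ∑ n ∈ Finset.Ioc ⌊x⌋₊ ⌊y⌋₊, (Real.log n * (n : ℝ)⁻¹ *
          ArithmeticFunction.vonMangoldt n) -
          (Real.log y ^ 2 / 2 - Real.log x ^ 2 / 2) := by
      rw [← e3, ← e2]; ring
    rw [e4]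
    exact e
  obtain ⟨A0, hA0⟩ := cauchy_limit (by positivity) hE1
  obtain ⟨A1, hA1⟩ := cauchy_limit (by positivity) hE2
  refine ⟨A0, A1, 12 * 11 * C, by positivity, fun x hx => ⟨?_, ?_⟩⟩
  · have e := hA0 x hx
    have e2 : ∑ n ∈ Finset.Icc 1 ⌊x⌋₊, w1 n - (Real.log x + A0) =
        ∑ n ∈ Finset.Icc 1 ⌊x⌋₊, w1 n - Real.log x - A0 := by ring
    rw [e2]; exact e
  · have e := hA1 x hx
    have e2 : ∑ n ∈ Finset.Icc 1 ⌊x⌋₊, w1 n * Real.log n - (Real.log x ^ 2 / 2 + A1) =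
        ∑ n ∈ Finset.Icc 1 ⌊x⌋₊, w1 n * Real.log n - Real.log x ^ 2 / 2 - A1 := by ring
    rw [e2]; exact e

end Pool.Agent.Lib.MP_6bc78b_nt.MS.L.H05
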